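import Pool.Agent.H33.Inv4

set_option autoImplicit false

namespace Pool.Agent.Results.MP_b9c098_an.Five

open Pool.Agent.H33.Inv

theorem result (H : Type) [NormedAddCommGroup H] [InnerProductSpace ℂ H] [CompleteSpace H]
    (hH : ¬ FiniteDimensional ℂ H) (T : H →L[ℂ] H) (hT : IsUnit T) :
    ∃ J₁ J₂ J₃ J₄ J₅ : H →L[ℂ] H, J₁ * J₁ = 1 ∧ J₂ * J₂ = 1 ∧ J₃ * J₃ = 1 ∧ J₄ * J₄ = 1 ∧
      J₅ * J₅ = 1 ∧ T = J₁ * J₂ * J₃ * J₄ * J₅ := by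
  obtain ⟨u, rfl⟩ := hT
  obtain ⟨J, _, _, h, ⟨a, b, h1, h2, rfl⟩, ⟨c, d, h3, h4, rfl⟩, e⟩ :=
    five hH u.1 u⁻¹.1 u.mul_inv u.inv_mul
  exact ⟨J, a, b, c, d, h, h1, h2, h3, h4, by rw [e]; simp only [mul_assoc]⟩

end Pool.Agent.Results.MP_b9c098_an.Five
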